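import Pool.Agent.W2helper4.LN.P9

/-! P8 of the project `Pool.Agent.W2helper59.LN`. -/

set_option autoImplicit false

namespace Pool.Agent.W2helper4.LN

open Set Pool.Agent.W2helper59.LN

/-- first zeros are unique -/
theorem isT_unique {V : ℝ → ℝ → ℝ} {a T T' : ℝ} (h : IsT V a T) (h' : IsT V a T') : T = T' := by
  rcases lt_trichotomy T T' with hlt | heq | hlt
  · have := h'.2.2 T ⟨h.1.le, hlt⟩
    rw [h.2.1] at this
    exact absurd this (lt_irrefl _)
  · exact heq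
  · have := h.2.2 T' ⟨h'.1.le, hlt⟩
    rw [h'.2.1] at this
    exact absurd this (lt_irrefl _)

/-- `v^4 + Bv v^7` cut off at negative values -/
noncomputable def gB (Bv v : ℝ) : ℝ := (max v 0) ^ 4 + Bv * (max v 0) ^ 7

theorem pow_diff_le {R u w : ℝ} (hR : 0 ≤ R) (hu : 0 ≤ u) (huR : u ≤ R) (hw : 0 ≤ w) (hwR : w ≤ R)
    (n : ℕ) : |u ^ n - w ^ n| ≤ n * R ^ (n - 1) * |u - w| := by
  rcases Nat.eq_zero_or_pos n with rfl | hn
  · simp
  obtain ⟨m, rfl⟩ : ∃ m, n = m + 1 := ⟨n - 1, by omega⟩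
  have h := (Commute.all u w).mul_geom_sum₂ (m + 1)
  rw [← h, abs_mul, mul_comm |u - w|]
  refine mul_le_mul_of_nonneg_right ?_ (abs_nonneg _)
  refine (Finset.abs_sum_le_sum_abs _ _).trans ?_
  have : ∀ i ∈ Finset.range (m + 1), |u ^ i * w ^ (m + 1 - 1 - i)| ≤ R ^ m := by
    intro i hi
    have hi' : i ≤ m := by
      have := Finset.mem_range.1 hi
      omega
    rw [abs_of_nonneg (by positivity)]
    calc u ^ i * w ^ (m + 1 - 1 - i) ≤ R ^ i * R ^ (m + 1 - 1 - i) :=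
          mul_le_mul (pow_le_pow_left₀ hu huR _) (pow_le_pow_left₀ hw hwR _) (by positivity)
            (by positivity)
      _ = R ^ m := by
          rw [← pow_add]; congr 1; omega
  refine (Finset.sum_le_sum this).trans ?_
  simp

theorem gB_lip {Bv R : ℝ} (hB : 0 ≤ Bv) (hR : 0 ≤ R) {v w : ℝ} (hv : |v| ≤ R) (hw : |w| ≤ R) :
    |gB Bv v - gB Bv w| ≤ (4 * R ^ 3 + Bv * (7 * R ^ 6)) * |v - w| := by
  unfold gB
  have hv' : max v 0 ≤ R := max_le (le_trans (le_abs_self _) hv) hR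
  have hw' : max w 0 ≤ R := max_le (le_trans (le_abs_self _) hw) hR
  have hd : |max v 0 - max w 0| ≤ |v - w| := by
    have := abs_max_sub_max_le_max v 0 w 0
    simpa using this
  have h4 := pow_diff_le hR (le_max_right v 0) hv' (le_max_right w 0) hw' 4
  have h7 := pow_diff_le hR (le_max_right v 0) hv' (le_max_right w 0) hw' 7
  norm_num at h4 h7
  have e : (max v 0) ^ 4 + Bv * (max v 0) ^ 7 - ((max w 0) ^ 4 + Bv * (max w 0) ^ 7)
      = ((max v 0) ^ 4 - (max w 0) ^ 4) + Bv * ((max v 0) ^ 7 - (max w 0) ^ 7) := by ring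
  rw [e]
  refine (abs_add_le _ _).trans ?_
  rw [abs_mul, abs_of_nonneg hB]
  have h4' : 4 * R ^ 3 * |max v 0 - max w 0| ≤ 4 * R ^ 3 * |v - w| :=
    mul_le_mul_of_nonneg_left hd (by positivity)
  have h7' : 7 * R ^ 6 * |max v 0 - max w 0| ≤ 7 * R ^ 6 * |v - w| :=
    mul_le_mul_of_nonneg_left hd (by positivity)
  have h7'' : Bv * |(max v 0) ^ 7 - (max w 0) ^ 7| ≤ Bv * (7 * R ^ 6 * |v - w|) :=
    mul_le_mul_of_nonneg_left (h7.trans h7') hB
  linarith [h4.trans h4']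

/-- scaling of the family to the exit problem -/
theorem scaled {V Q : ℝ → ℝ → ℝ} (hF : Fam V Q) {a : ℝ} (ha : 0 < a) (s1 : ℝ) {τ : ℝ}
    (hτ : 1 < τ) :
    SolOn (fun _ v => gB (Real.exp (-2 * s1)) v) 1 τ
      (fun t => Real.exp (2 / 3 * s1) * V a (Real.exp s1 * t))
      (fun t => Real.exp (2 / 3 * s1) * Q a (Real.exp s1 * t)) := by
  have hpos := Real.exp_pos s1
  have hT : 0 < Real.exp s1 * (τ + 1) := by positivity
  have h := hF.sol a ha _ hT
  have hmem : ∀ t ∈ Icc (1:ℝ) τ, Real.exp s1 * t ∈ Ioo (0:ℝ) (Real.exp s1 * (τ + 1)) := by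
    intro t ht
    have h1 : 0 < t := by linarith [ht.1]
    exact ⟨by positivity, by nlinarith [ht.2]⟩
  have hcont : ContinuousOn (fun t : ℝ => Real.exp s1 * t) (Icc 1 τ) := by fun_prop
  have hmaps : MapsTo (fun t : ℝ => Real.exp s1 * t) (Icc 1 τ)
      (Icc (0:ℝ) (Real.exp s1 * (τ + 1))) := fun t ht => Ioo_subset_Icc_self (hmem t ht)
  refine ⟨?_, ?_, ?_, ?_⟩
  · exact continuousOn_const.mul (h.cv.comp hcont hmaps)
  · exact continuousOn_const.mul (h.cq.comp hcont hmaps)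
  · intro t ht
    have hm := hmem t ⟨ht.1.le, ht.2.le⟩
    have h1 := h.dv _ hm
    have h2 : HasDerivAt (fun t : ℝ => Real.exp s1 * t) (Real.exp s1) t := by
      simpa using (hasDerivAt_id t).const_mul (Real.exp s1)
    have h3 := (h1.comp t h2).const_mul (Real.exp (2 / 3 * s1) / Real.exp s1)
    refine (h3.congr_of_eventuallyEq ?_).congr_deriv ?_
    · refine Filter.Eventually.of_forall fun r => ?_
      simp only [Function.comp, smul_eq_mul]
      field_simp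
    · field_simp
  · intro t ht
    have hm := hmem t ⟨ht.1.le, ht.2.le⟩
    have h1 := h.dq _ hm
    have h2 : HasDerivAt (fun t : ℝ => Real.exp s1 * t) (Real.exp s1) t := by
      simpa using (hasDerivAt_id t).const_mul (Real.exp s1)
    have h3 := (h1.comp t h2).const_mul (Real.exp (2 / 3 * s1))
    refine h3.congr_deriv ?_
    have hmax : max (Real.exp (2 / 3 * s1) * V a (Real.exp s1 * t)) 0
        = Real.exp (2 / 3 * s1) * max (V a (Real.exp s1 * t)) 0 := by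
      rw [mul_max_of_nonneg _ _ (Real.exp_pos _).le, mul_zero]
    simp only [smul_eq_mul, fp, gB]
    rw [hmax]
    have hc : Real.exp s1 * Real.exp s1 * Real.exp (-2 * s1) = 1 := by
      rw [← Real.exp_add, ← Real.exp_add, ← Real.exp_zero]; congr 1; ring
    have hc3 : Real.exp (2 / 3 * s1) ^ 3 = Real.exp s1 * Real.exp s1 := by
      rw [← Real.exp_nat_mul, ← Real.exp_add]; congr 1; push_cast; ring
    set c := Real.exp (2 / 3 * s1) with hcdef
    set w := max (V a (Real.exp s1 * t)) 0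
    set u := Real.exp s1
    have h4 : (c * w) ^ 4 = c * (c ^ 3) * w ^ 4 := by ring
    have h7 : Real.exp (-2 * s1) * (c * w) ^ 7 = c * (u * u) * w ^ 7 := by
      have : Real.exp (-2 * s1) * (c * w) ^ 7 = (c ^ 3 * Real.exp (-2 * s1)) * c ^ 3 * c * w ^ 7 := by
        ring
      rw [this, hc3]
      rw [hc]
      ring
    rw [h4, h7, hc3]
    ring

theorem bdd_of_cont {a b : ℝ} {f : ℝ → ℝ} (hf : ContinuousOn f (Icc a b)) :
    ∃ R, 0 ≤ R ∧ ∀ t ∈ Icc a b, |f t| ≤ R := by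
  obtain ⟨R, hR⟩ := isCompact_Icc.exists_bound_of_continuousOn hf
  exact ⟨max R 0, le_max_right _ _, fun t ht => (hR t ht).trans (le_max_left _ _)⟩

/-- **uniqueness for the cut off exit problem** -/
theorem gB_unique (hstab : P1_stab) {Bv : ℝ} (hB : 0 ≤ Bv) {t0 t1 : ℝ} (h0 : 0 ≤ t0)
    (h01 : t0 < t1) {v q w r : ℝ → ℝ} (hv : SolOn (fun _ v => gB Bv v) t0 t1 v q)
    (hw : SolOn (fun _ v => gB Bv v) t0 t1 w r) (h1 : v t0 = w t0) (h2 : q t0 = r t0) :
    ∀ t ∈ Icc t0 t1, v t = w t ∧ q t = r t := by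
  obtain ⟨R1, hR1, hb1⟩ := bdd_of_cont hv.cv
  obtain ⟨R2, hR2, hb2⟩ := bdd_of_cont hw.cv
  set R := R1 + R2 with hRdef
  have hR : 0 ≤ R := by positivity
  obtain ⟨C, hC, h⟩ := hstab (4 * R ^ 3 + Bv * (7 * R ^ 6)) t0 t1 (by positivity) h0 h01
  intro t ht
  have := h ℝ (fun _ v => gB Bv v) (fun _ v => gB Bv v) v q w r 0 hv hw le_rfl (by
    intro t ht
    rw [add_zero]
    exact gB_lip hB hR ((hb1 t ht).trans (by linarith)) ((hb2 t ht).trans (by linarith))) t ht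
  rw [h1, h2] at this
  simp only [sub_self, norm_zero, add_zero, mul_zero] at this
  exact ⟨sub_eq_zero.1 (norm_le_zero_iff.1 this.1), sub_eq_zero.1 (norm_le_zero_iff.1 this.2)⟩

theorem solOn_congr {F G : ℝ → ℝ → ℝ} {t0 t1 : ℝ} {v q : ℝ → ℝ} (h : SolOn F t0 t1 v q)
    (he : ∀ t ∈ Ioo t0 t1, F t (v t) = G t (v t)) : SolOn G t0 t1 v q :=
  ⟨h.cv, h.cq, h.dv, fun t ht => by
    have := h.dq t ht
    rwa [he t ht] at this⟩

/-- the first zero of `V a` after the exit -/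
theorem zero_of_exit (hstab : P1_stab) {V Q : ℝ → ℝ → ℝ} (hF : Fam V Q) {a s0 s1 ε xm τ : ℝ}
    (ha : 0 < a) (hpos : ∀ t ∈ Icc 0 (Real.exp s0), 0 < V a t)
    (hex : Exit (LX V) (LX Q) s0 ε xm a s1) (hz : ZeroE ε (LX V a s1) (Real.exp (-2 * s1)) τ) :
    IsT V a (Real.exp s1 * τ) := by
  obtain ⟨hτ, v, q, hsol, hv1, hq1, hv0, hvp⟩ := hz
  have hB : 0 ≤ Real.exp (-2 * s1) := (Real.exp_pos _).le
  have hsol' : SolOn (fun _ v => gB (Real.exp (-2 * s1)) v) 1 τ v q := by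
    refine solOn_congr hsol fun t ht => ?_
    have := hvp t ⟨ht.1.le, ht.2⟩
    simp only [gB]
    rw [max_eq_left this.le]
  have hu := gB_unique hstab hB zero_le_one hτ hsol' (scaled hF ha s1 hτ)
    (by rw [hv1]; simp [LX]) (by
      rw [hq1, ← hex.2.1]; simp [LX])
  have hc := Real.exp_pos (2 / 3 * s1)
  have he := Real.exp_pos s1
  refine ⟨by positivity, ?_, ?_⟩
  · have := (hu τ ⟨hτ.le, le_rfl⟩).1
    rw [hv0] at this
    rcases mul_eq_zero.1 this.symm with h | h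
    · exact absurd h hc.ne'
    · exact h
  · intro t ht
    by_cases h1 : t ≤ Real.exp s0
    · exact hpos t ⟨ht.1, h1⟩
    have h1' := not_le.1 h1
    have htp : 0 < t := lt_trans (Real.exp_pos _) h1'
    by_cases h2 : t ≤ Real.exp s1
    · have h3 := (hex.2.2.2 (Real.log t) ⟨((Real.lt_log_iff_exp_lt htp).2 h1').le,
        (Real.log_le_iff_le_exp htp).2 h2⟩).1
      rw [LX_pos_iff, Real.exp_log htp] at h3
      exact h3
    · have h2' := not_le.1 h2
      have h3 : t / Real.exp s1 ∈ Ico (1:ℝ) τ := by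
        constructor
        · rw [le_div_iff₀ he]; linarith
        · rw [div_lt_iff₀ he]; linarith [ht.2]
      have h4 := hvp _ h3
      rw [(hu _ ⟨h3.1, h3.2.le⟩).1] at h4
      have h5 : Real.exp s1 * (t / Real.exp s1) = t := by field_simp
      simp only [h5] at h4
      exact (mul_pos_iff_of_pos_left hc).1 h4

/-- left-local strict decrease and continuity give strict decrease -/
theorem strictAnti_of_left {T : ℝ → ℝ} {a b : ℝ} (hab : a < b) (hc : ContinuousOn T (Icc a b))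
    (hl : ∀ c ∈ Ioc a b, ∃ η > 0, ∀ x, c - η < x → x < c → a ≤ x → T c < T x) : T b < T a := by
  obtain ⟨c, hcm, hmax⟩ := isCompact_Icc.exists_isMaxOn (nonempty_Icc.2 hab.le) hc
  have hca : c = a := by
    by_contra hne
    have hlt : a < c := lt_of_le_of_ne hcm.1 (Ne.symm hne)
    obtain ⟨η, hη, h⟩ := hl c ⟨hlt, hcm.2⟩
    have h1 := h (max a (c - η / 2)) (lt_of_lt_of_le (by linarith) (le_max_right _ _))
      (max_lt hlt (by linarith)) (le_max_left _ _)
    have h2 := hmax (show max a (c - η / 2) ∈ Icc a b from ⟨le_max_left _ _,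
      (max_le hcm.1 (by linarith)).trans hcm.2⟩)
    exact absurd h1 (not_lt.2 h2)
  obtain ⟨η, hη, h⟩ := hl b ⟨hab, le_rfl⟩
  have h1 := h (max a (b - η / 2)) (lt_of_lt_of_le (by linarith) (le_max_right _ _))
    (max_lt hab (by linarith)) (le_max_left _ _)
  have h2 := hmax (show max a (b - η / 2) ∈ Icc a b from ⟨le_max_left _ _,
    max_le hab.le (by linarith)⟩)
  rw [hca] at h2
  exact lt_of_lt_of_le h1 h2

theorem exp_diff_le {Bm sa sb : ℝ} (h : sb < sa) (hb : Real.exp (-2 * sb) ≤ Bm) :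
    |Real.exp (-2 * sa) - Real.exp (-2 * sb)| ≤ 2 * Bm * (sa - sb) := by
  have h1 : Real.exp (-2 * sa) ≤ Real.exp (-2 * sb) := Real.exp_le_exp.2 (by linarith)
  rw [abs_of_nonpos (by linarith)]
  have h2 : Real.exp (-2 * sa) = Real.exp (-2 * sb) * Real.exp (-2 * (sa - sb)) := by
    rw [← Real.exp_add]; congr 1; ring
  have h3 := Real.add_one_le_exp (-2 * (sa - sb))
  have h4 := Real.exp_pos (-2 * sb)
  have h5 : 0 < sa - sb := by linarith
  have h6 : Real.exp (-2 * sb) * (2 * (sa - sb)) ≤ Bm * (2 * (sa - sb)) :=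
    mul_le_mul_of_nonneg_right hb (by linarith)
  nlinarith

theorem p8_exit (hstab : P1_stab) : P8_exit := by
  intro V Q α B s0 ε xm κ Bm L C hF hT hα hαB hε hεx hκ hL hC hE hnum hpos hex hexB hloc
  classical
  -- zeros
  have hξ : ∀ a s1, Exit (LX V) (LX Q) s0 ε xm a s1 → LX V a s1 ∈ Icc ε xm := by
    intro a s1 h
    have h1 := h.2.2.2 s1 ⟨h.1.le, le_rfl⟩
    rw [h.2.1] at h1
    exact ⟨h1.2.2, h1.2.1.le⟩
  have hzero : ∀ a ∈ Ioc α B, ∀ s1, Exit (LX V) (LX Q) s0 ε xm a s1 →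
      ∃ τ, ZeroE ε (LX V a s1) (Real.exp (-2 * s1)) τ ∧ IsT V a (Real.exp s1 * τ) := by
    intro a ha s1 h
    obtain ⟨τ, hτ⟩ := hE.1 (LX V a s1) (hξ a s1 h) (Real.exp (-2 * s1))
      ⟨(Real.exp_pos _).le, hexB a ha s1 h⟩
    exact ⟨τ, hτ, zero_of_exit hstab hF (lt_trans hα ha.1) (hpos a ha) h hτ⟩
  have hZ : ZOn V (Ioc α B) := by
    intro a ha
    obtain ⟨s1, h1, -⟩ := hex a ha
    obtain ⟨τ, -, h2⟩ := hzero a ha s1 h1
    exact ⟨_, h2⟩
  refine ⟨hZ, ?_⟩
  -- local decrease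
  have hlocT : ∀ b ∈ Ioc α B, ∃ η > 0, ∀ a ∈ Ioc α B, b - η < a → a < b → ∀ Ta Tb,
      IsT V a Ta → IsT V b Tb → Tb < Ta := by
    intro b hb
    obtain ⟨sb, hsb, -⟩ := hex b hb
    obtain ⟨η, hη, h⟩ := hloc b hb sb hsb
    refine ⟨η, hη, ?_⟩
    intro a ha h1 h2 Ta Tb hTa hTb
    obtain ⟨sa, hsa, -⟩ := hex a ha
    obtain ⟨hss, hk⟩ := h a ha h1 h2 sa hsa
    obtain ⟨τa, hza, hTa'⟩ := hzero a ha sa hsa
    obtain ⟨τb, hzb, hTb'⟩ := hzero b hb sb hsb
    have e1 := isT_unique hTa hTa'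
    have e2 := isT_unique hTb hTb'
    have hlip := hE.2 _ (hξ a sa hsa) _ (hξ b sb hsb) _
      ⟨(Real.exp_pos _).le, hexB a ha sa hsa⟩ _ ⟨(Real.exp_pos _).le, hexB b hb sb hsb⟩ τa τb
      hza hzb
    have hτa : 0 < τa := by linarith [hza.1]
    have hτb : 0 < τb := by linarith [hzb.1]
    have hd := exp_diff_le hss (hexB b hb sb hsb)
    have h5 : |Real.log τa - Real.log τb| ≤ (L * κ + 2 * C * Bm) * (sa - sb) := by
      calc |Real.log τa - Real.log τb| ≤ _ := hlip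
        _ ≤ L * (κ * (sa - sb)) + C * (2 * Bm * (sa - sb)) :=
            add_le_add (mul_le_mul_of_nonneg_left hk hL) (mul_le_mul_of_nonneg_left hd hC)
        _ = _ := by ring
    have h6 : (L * κ + 2 * C * Bm) * (sa - sb) < 1 * (sa - sb) :=
      mul_lt_mul_of_pos_right hnum (by linarith)
    have h7 : Real.log Tb < Real.log Ta := by
      rw [e1, e2, Real.log_mul (Real.exp_pos _).ne' hτa.ne', Real.log_mul (Real.exp_pos _).ne'
        hτb.ne', Real.log_exp, Real.log_exp]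
      have := (abs_le.1 h5).1
      linarith
    exact (Real.log_lt_log_iff hTb.1 hTa.1).1 h7
  -- choice of the zero
  choose! T hTT using hZ
  intro a ha b hb hab Ta Tb hTa hTb
  rw [isT_unique hTa (hTT a ha), isT_unique hTb (hTT b hb)]
  refine strictAnti_of_left hab ?_ ?_
  · intro c hc
    have hc' : c ∈ Ioc α B := ⟨lt_of_lt_of_le ha.1 hc.1, hc.2.trans hb.2⟩
    rw [Metric.continuousWithinAt_iff]
    intro η hη
    obtain ⟨δ, hδ, h⟩ := hT c (lt_trans hα hc'.1) (T c) (hTT c hc') η hη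
    refine ⟨δ, hδ, fun {x} hx hxd => ?_⟩
    rw [Real.dist_eq] at hxd
    obtain ⟨-, Tx, hTx, hd⟩ := h x hxd
    have hx' : x ∈ Ioc α B := ⟨lt_of_lt_of_le ha.1 hx.1, hx.2.trans hb.2⟩
    rw [Real.dist_eq, isT_unique (hTT x hx') hTx]
    exact hd
  · intro c hc
    have hc' : c ∈ Ioc α B := ⟨lt_trans ha.1 hc.1, hc.2.trans hb.2⟩
    obtain ⟨η, hη, h⟩ := hlocT c hc'
    refine ⟨η, hη, fun x h1 h2 h3 => ?_⟩
    have hx' : x ∈ Ioc α B := ⟨lt_of_lt_of_le ha.1 h3, h2.le.trans hc'.2⟩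
    exact h x hx' h1 h2 _ _ (hTT x hx') (hTT c hc')

end Pool.Agent.W2helper4.LN
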