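import Pool.Agent.W2helper59.LN.Stm

/-! P9 of the project `Pool.Agent.W2helper59.LN`. -/

set_option autoImplicit false

namespace Pool.Agent.W2helper4.LN

open Set Pool.Agent.W2helper59.LN

theorem exp_23_pos (s : ℝ) : 0 < Real.exp (2 / 3 * s) := Real.exp_pos _

theorem LX_pos_iff (V : ℝ → ℝ → ℝ) (a s : ℝ) : 0 < LX V a s ↔ 0 < V a (Real.exp s) := by
  unfold LX
  exact mul_pos_iff_of_pos_left (Real.exp_pos _)

theorem LX_eq_zero_iff (V : ℝ → ℝ → ℝ) (a s : ℝ) : LX V a s = 0 ↔ V a (Real.exp s) = 0 := by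
  unfold LX
  constructor
  · intro h
    rcases mul_eq_zero.1 h with h | h
    · exact absurd h (Real.exp_pos _).ne'
    · exact h
  · intro h
    rw [h, mul_zero]

theorem planar {V Q : ℝ → ℝ → ℝ} (hF : Fam V Q) {a : ℝ} (ha : 0 < a) :
    PSol (LX V a) (LX Q a) := by
  have key : ∀ s : ℝ, HasDerivAt (fun t : ℝ => t • V a t) (Q a (Real.exp s)) (Real.exp s) ∧
      HasDerivAt (Q a) (-(Real.exp s • fp (V a (Real.exp s)))) (Real.exp s) := by
    intro s
    have hs := Real.exp_pos s
    have h := hF.sol a ha (Real.exp s + 1) (by linarith)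
    exact ⟨h.dv _ ⟨hs, by linarith⟩, h.dq _ ⟨hs, by linarith⟩⟩
  constructor
  · intro s
    have h1 := (key s).1.comp s (Real.hasDerivAt_exp s)
    have h2 : HasDerivAt (fun s : ℝ => Real.exp (-(1 / 3) * s))
        (Real.exp (-(1 / 3) * s) * (-(1 / 3) * 1)) s :=
      (((hasDerivAt_id s).const_mul (-(1 / 3 : ℝ)))).exp
    have h3 := h2.mul h1
    have e : (LX V a) = fun s : ℝ => Real.exp (-(1 / 3) * s) *
        (((fun t : ℝ => t • V a t) ∘ Real.exp) s) := by
      funext r
      simp only [LX, Function.comp, smul_eq_mul]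
      rw [← mul_assoc, ← Real.exp_add]
      congr 2
      ring
    have e3 : Real.exp (2 / 3 * s) = Real.exp (-(1 / 3) * s) * Real.exp s := by
      rw [← Real.exp_add]; congr 1; ring
    rw [e]
    refine h3.congr_deriv ?_
    simp only [LX, Function.comp, smul_eq_mul]
    rw [e3]
    ring
  · intro s
    have h1 := (key s).2.comp s (Real.hasDerivAt_exp s)
    have h2 : HasDerivAt (fun s : ℝ => Real.exp (2 / 3 * s))
        (Real.exp (2 / 3 * s) * (2 / 3 * 1)) s :=
      (((hasDerivAt_id s).const_mul (2 / 3 : ℝ))).exp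
    have h3 := h2.mul h1
    have e : (LX Q a) = fun s : ℝ => Real.exp (2 / 3 * s) * ((Q a ∘ Real.exp) s) := by
      funext r
      simp only [LX, Function.comp]
    have hmax : max (LX V a s) 0 = Real.exp (2 / 3 * s) * max (V a (Real.exp s)) 0 := by
      unfold LX
      rw [mul_max_of_nonneg _ _ (Real.exp_pos _).le, mul_zero]
    rw [e]
    refine h3.congr_deriv ?_
    rw [hmax]
    simp only [Function.comp, smul_eq_mul, fp]
    have hc : Real.exp s * Real.exp s * Real.exp (-2 * s) = 1 := by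
      rw [← Real.exp_add, ← Real.exp_add, ← Real.exp_zero]; congr 1; ring
    have hc3 : Real.exp (2 / 3 * s) ^ 3 = Real.exp s * Real.exp s := by
      rw [← Real.exp_nat_mul, ← Real.exp_add]; congr 1; push_cast; ring
    set c := Real.exp (2 / 3 * s) with hcdef
    set w := max (V a (Real.exp s)) 0
    set u := Real.exp s
    have h4 : (c * w) ^ 4 = c * (c ^ 3) * w ^ 4 := by ring
    have h7 : Real.exp (-2 * s) * (c * w) ^ 7 = c * (u * u) * w ^ 7 := by
      have : Real.exp (-2 * s) * (c * w) ^ 7 = (c ^ 3 * Real.exp (-2 * s)) * c ^ 3 * c * w ^ 7 := by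
        ring
      rw [this, hc3]
      rw [hc]
      ring
    rw [h4, h7, hc3]
    ring

theorem p9_planar : P9_planar := by
  intro V Q hF
  refine ⟨fun a ha => planar hF ha, ?_⟩
  intro A B s0 hA hAB S hS
  obtain ⟨C, hC, h⟩ := hF.lip B (Real.exp S) (by linarith) (Real.exp_pos _)
  refine ⟨Real.exp (2 / 3 * S) * C, by positivity, ?_⟩
  intro a ha b hb s hs
  have h1 := h a ⟨by linarith [ha.1], ha.2⟩ b ⟨by linarith [hb.1], hb.2⟩ (Real.exp s)
    ⟨(Real.exp_pos _).le, Real.exp_le_exp.2 hs.2⟩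
  have he : Real.exp (2 / 3 * s) ≤ Real.exp (2 / 3 * S) := Real.exp_le_exp.2 (by linarith [hs.2])
  have hp : 0 < Real.exp (2 / 3 * s) := Real.exp_pos _
  have hab : 0 ≤ C * |a - b| := by positivity
  constructor
  · unfold LX
    rw [← mul_sub, abs_mul, abs_of_pos hp, mul_assoc]
    exact mul_le_mul he h1.1 (abs_nonneg _) (Real.exp_pos _).le
  · unfold LX
    rw [← mul_sub, abs_mul, abs_of_pos hp, mul_assoc]
    exact mul_le_mul he h1.2 (abs_nonneg _) (Real.exp_pos _).le

theorem p9_zero : P9_zero := by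
  intro V Q hF a s0 ha hpos
  have key : ∀ T, IsT V a T → s0 < Real.log T ∧ LX V a (Real.log T) = 0 ∧
      ∀ s ∈ Ico s0 (Real.log T), 0 < LX V a s := by
    intro T hT
    have hT0 := hT.1
    have h1 : Real.exp s0 < T := by
      by_contra h
      have := hpos T ⟨hT0.le, not_lt.1 h⟩
      rw [hT.2.1] at this
      exact lt_irrefl _ this
    have h2 : s0 < Real.log T := (Real.lt_log_iff_exp_lt hT0).2 h1
    refine ⟨h2, ?_, ?_⟩
    · rw [LX_eq_zero_iff, Real.exp_log hT0]
      exact hT.2.1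
    · intro s hs
      rw [LX_pos_iff]
      exact hT.2.2 _ ⟨(Real.exp_pos _).le, (Real.lt_log_iff_exp_lt hT0).1 hs.2⟩
  refine ⟨?_, key, ?_⟩
  · intro s1 hs1 h0 h1
    refine ⟨Real.exp_pos _, (LX_eq_zero_iff V a s1).1 h0, ?_⟩
    intro t ht
    by_cases htt : t ≤ Real.exp s0
    · exact hpos t ⟨ht.1, htt⟩
    · have ht0 : Real.exp s0 < t := not_le.1 htt
      have htp : 0 < t := lt_trans (Real.exp_pos _) ht0
      have h2 := h1 (Real.log t) ⟨((Real.lt_log_iff_exp_lt htp).2 ht0).le,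
        (Real.log_lt_iff_lt_exp htp).2 ht.2⟩
      rw [LX_pos_iff, Real.exp_log htp] at h2
      exact h2
  · intro h T hT
    obtain ⟨h1, h2, -⟩ := key T hT
    have := h _ h1.le
    rw [h2] at this
    exact lt_irrefl _ this

end Pool.Agent.W2helper4.LN
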